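import Pool.Agent.ANO2.Core.Dir
import Pool.Agent.ANO2.Core.PerShadow

/-!
# ANO phase 2, abstract core: directions at a point of `K0` are adjacent, step (4)
-/

set_option autoImplicit false

open Set Filter Topology

namespace Pool.Agent.ANO2.Core

variable {X : Type} [MetricSpace X] [ProperSpace X] {S : Setup X}

namespace Local

variable (L : Local S)

theorem adj_of {b : X} (hb : b ∈ L.K0) {e e' : ZMod L.n} (he : e ∈ L.UX b) (he' : e' ∈ L.UY b) :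
    Adj e e' := by
  obtain ⟨N1, hN1, hX⟩ := L.closeX
  obtain ⟨N2, hN2, hY⟩ := L.closeY
  have hadj := L.adj
  have hev := L.eventually_phi hb (Filter.inter_mem (Filter.inter_mem hadj hN1) hN2)
  obtain ⟨η, hη, hηN⟩ := Metric.eventually_nhds_iff.1 hev
  obtain ⟨δ0, hδ0, hsh⟩ := S.per_shadow (ε := η / 4) (by positivity)
  obtain ⟨δ, hδ, hδ1, hδ2⟩ : ∃ δ > 0, δ ≤ δ0 ∧ δ ≤ η / 4 :=
    ⟨min δ0 (η / 4), lt_min hδ0 (by positivity), min_le_left _ _, min_le_right _ _⟩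
  obtain ⟨a, ⟨haP, haX⟩, hab⟩ :=
    (Filter.Frequently.and_eventually he (Metric.ball_mem_nhds b (half_pos hδ))).exists
  obtain ⟨a', ⟨haP', haY⟩, hab'⟩ :=
    (Filter.Frequently.and_eventually he' (Metric.ball_mem_nhds b (half_pos hδ))).exists
  have hab1 : dist a b < δ / 2 := hab
  have hab2 : dist a' b < δ / 2 := hab'
  have haa : dist a a' ≤ δ0 := by
    have := dist_triangle_right a a' b
    linarith
  have hNa := hηN (y := a) (by linarith) (subset_closure haP)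
  have hNa' := hηN (y := a') (by linarith) (subset_closure haP')
  obtain ⟨C1, hC1⟩ := S.dist_phi
  obtain ⟨Ja, hεX⟩ := hX e (S.phi a) hNa.1.2 haX (2 * C1 + η / 4)
  obtain ⟨Jb, hεY⟩ := hY e' (S.phi a') hNa'.2 haY (2 * C1 + η / 4)
  obtain ⟨J0, hJ0⟩ : ∃ J0 : ℕ, J0 = max Ja Jb := ⟨_, rfl⟩
  obtain ⟨c, hcP, hcf, hcb⟩ := hsh a haP a' haP' haa (J0 + 1)
  have hca : dist c a ≤ η / 4 := by
    have h0 := hcf 0 (Nat.zero_le _)
    simpa using h0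
  have hcb1 : dist c b < η := by
    have := dist_triangle c a b
    linarith
  have hNc := hηN (y := c) hcb1 (subset_closure hcP)
  have h1 : dist ((S.F0 ^ (((J0 + 1 : ℕ)) : ℤ)) (S.phi c))
      ((S.F0 ^ (((J0 + 1 : ℕ)) : ℤ)) (S.phi a)) ≤ 2 * C1 + η / 4 := by
    have h2 := hC1 c (subset_closure hcP) (((J0 + 1 : ℕ)) : ℤ)
    have h3 := hC1 a (subset_closure haP) (((J0 + 1 : ℕ)) : ℤ)
    have h4 := hcf (J0 + 1) le_rfl
    rw [dist_comm] at h2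
    have h5 := dist_triangle4 ((S.F0 ^ (((J0 + 1 : ℕ)) : ℤ)) (S.phi c))
      ((S.F ^ (((J0 + 1 : ℕ)) : ℤ)) c) ((S.F ^ (((J0 + 1 : ℕ)) : ℤ)) a)
      ((S.F0 ^ (((J0 + 1 : ℕ)) : ℤ)) (S.phi a))
    linarith
  have h1' : dist ((S.F0 ^ (-((J0 + 1 : ℕ) : ℤ))) (S.phi c))
      ((S.F0 ^ (-((J0 + 1 : ℕ) : ℤ))) (S.phi a')) ≤ 2 * C1 + η / 4 := by
    have h2 := hC1 c (subset_closure hcP) (-((J0 + 1 : ℕ) : ℤ))
    have h3 := hC1 a' (subset_closure haP') (-((J0 + 1 : ℕ) : ℤ))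
    have h4 := hcb (J0 + 1) (Nat.succ_pos _) le_rfl
    rw [dist_comm] at h2
    have h5 := dist_triangle4 ((S.F0 ^ (-((J0 + 1 : ℕ) : ℤ))) (S.phi c))
      ((S.F ^ (-((J0 + 1 : ℕ) : ℤ))) c) ((S.F ^ (-((J0 + 1 : ℕ) : ℤ))) a')
      ((S.F0 ^ (-((J0 + 1 : ℕ) : ℤ))) (S.phi a'))
    linarith
  have hXc : S.phi c ∈ L.XS e :=
    hεX (J0 + 1) (by rw [hJ0]; exact (le_max_left _ _).trans (Nat.le_succ _)) _ hNc.1.2 h1
  have hYc : S.phi c ∈ L.YS e' :=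
    hεY (J0 + 1) (by rw [hJ0]; exact (le_max_right _ _).trans (Nat.le_succ _)) _ hNc.2 h1'
  exact hNc.1.1 e e' hXc hYc

end Local

end Pool.Agent.ANO2.Core
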