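import Pool.Agent.ANO2.Core.Basic

/-!
# ANO phase 2, abstract core: shadowing of pseudo-orbits which are periodic modulo the deck group

Package.  Given `y_0, …, y_{p-1}` and `h ∈ 𝒢` with `F y_i` close to `y_{i+1}` and `F y_{p-1}` close
to `h y_0`, there is `c` with `F^p c = h c` whose orbit follows `y_0, …, y_{p-1}`.

Proof of `closing`.  Let `ε' = min ε (e0/2)`, `δ` from `S.shadowing ε'`.  Work in the group
`X ≃ₜ X`; write `h` also for the homeomorphism `h.toHomeomorph`.  Let `G = h⁻¹ F^p`.  For `j ∈ ℤ`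
write `j = p q + i`, `q = j / p`, `i = j % p` (`Int.ediv`, `Int.emod`; `0 ≤ i < p`), and define
`x_j = (F^j G^(-q) F^(-i)) y_i` (`i` as a natural number: `(j % p).toNat`).

(1) `F^j G^(-q) F^(-i)` is (the homeomorphism of) an element of `𝒢`.  Call a homeomorphism deck if
    it agrees with an element of `𝒢`.  Products and inverses of deck ones are deck, and
    `F^a u F^(-a)` is deck for `u` deck, `a ∈ ℤ` (`S.conj_zpow`).
    `A_q := F^(p q) G^(-q)` is deck for all `q ∈ ℤ`: `A_0 = 1`,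
    `A_{q+1} = F^p A_q G⁻¹ = F^p A_q F^(-p) h = (F^p A_q F^(-p)) h`, and conversely
    `A_q = F^(-p) A_{q+1} G = F^(-p) (A_{q+1} h⁻¹) F^p`.
    `F^j G^(-q) F^(-i) = F^i A_q F^(-i)` since `j = p q + i`.
(2) `dist (F x_j) x_{j+1} ≤ δ`.  If `i + 1 < p`, then `j + 1 = p q + (i+1)` and
    `F x_j = F^(j+1) G^(-q) F^(-i) y_i = B (F y_i)` where `B = F^(j+1) G^(-q) F^(-(i+1))` is deck,
    and `x_{j+1} = B y_{i+1}`.  If `i + 1 = p`, then `j + 1 = p (q+1)`,
    `x_{j+1} = F^(j+1) G^(-(q+1)) y_0 = F^(j+1) G^(-q) F^(-p) h y_0 = B (h y_0)` with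
    `B = F^(j+1) G^(-q) F^(-p)` (deck: `= F^(i+1) A_q F^(-(i+1))`) and
    `F x_j = F^(j+1) G^(-q) F^(-i) y_i = B (F y_{p-1})`.  So the distance is
    `dist (F y_{p-1}) (h y_0) ≤ δ`.
(3) Let `c` be the shadowing point: `dist (F^j c) x_j ≤ ε'`.  `x_{j+p} = F^(j+p) G^(-(q+1)) F^(-i) y_i
    = B_j x_j` with `B_j = F^(j+p) G⁻¹ F^(-j) = F^j h F^(-j)` deck.  From
    `dist (F^(j+p) c) (B_j x_j) ≤ ε'` we get `dist (B_j⁻¹ F^(j+p) c) x_j ≤ ε'` and
    `B_j⁻¹ F^(j+p) = F^j h⁻¹ F^p = F^j G`.  So `dist (F^j (G c)) (F^j c) ≤ 2 ε' ≤ e0` for all `j`,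
    hence `G c = c` by `S.expansive`, i.e. `F^p c = h c`.
(4) For `0 ≤ i < p`: `q = 0`, `x_i = y_i`, so `dist (F^i c) (y_i) ≤ ε' ≤ ε`.
-/

set_option autoImplicit false

open Set Filter Topology

namespace Pool.Agent.ANO2.Core.Setup

variable {X : Type} [MetricSpace X] [ProperSpace X] (S : Setup X)

/-- a homeomorphism which is a deck transformation -/
private def Dk (u : X ≃ₜ X) : Prop := ∃ g ∈ S.𝒢, ∀ x, u x = g x

private theorem dk_one : S.Dk 1 := ⟨1, S.𝒢.one_mem, fun _ => rfl⟩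

private theorem dk_mul {u v : X ≃ₜ X} (hu : S.Dk u) (hv : S.Dk v) : S.Dk (u * v) := by
  obtain ⟨g, hg, h1⟩ := hu
  obtain ⟨g', hg', h2⟩ := hv
  refine ⟨g * g', S.𝒢.mul_mem hg hg', fun x => ?_⟩
  change u (v x) = g (g' x)
  rw [h1, h2]

private theorem dk_inv {u : X ≃ₜ X} (hu : S.Dk u) : S.Dk u⁻¹ := by
  obtain ⟨g, hg, h1⟩ := hu
  refine ⟨g⁻¹, S.𝒢.inv_mem hg, fun x => ?_⟩
  change u.symm x = g.symm x
  rw [Homeomorph.symm_apply_eq, h1, IsometryEquiv.apply_symm_apply]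

private theorem dk_conj {u : X ≃ₜ X} (hu : S.Dk u) (a : ℤ) : S.Dk (S.F ^ a * u * S.F ^ (-a)) := by
  obtain ⟨g, hg, h1⟩ := hu
  obtain ⟨g', hg', h2, _⟩ := S.conj_zpow hg a
  refine ⟨g', hg', fun x => ?_⟩
  change (S.F ^ a) (u ((S.F ^ (-a)) x)) = g' x
  rw [h1, h2]
  congr 1
  change (S.F ^ a * S.F ^ (-a)) x = x
  rw [← zpow_add, add_neg_cancel, zpow_zero]
  rfl

private theorem dk_dist {u : X ≃ₜ X} (hu : S.Dk u) (x y : X) : dist (u x) (u y) = dist x y := by
  obtain ⟨g, _, h1⟩ := hu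
  rw [h1, h1, g.dist_eq]

private theorem dk_A {H G : X ≃ₜ X} {p : ℤ} (hH : S.Dk H) (hG : G = H⁻¹ * S.F ^ p) (q : ℤ) :
    S.Dk (S.F ^ (p * q) * G ^ (-q)) := by
  have hG' : G⁻¹ = S.F ^ (-p) * H := by
    rw [hG]
    group
  induction q using Int.induction_on with
  | zero =>
    have e : S.F ^ (p * 0) * G ^ (-(0 : ℤ)) = 1 := by
      rw [mul_zero, neg_zero, zpow_zero, zpow_zero, one_mul]
    rw [e]
    exact S.dk_one
  | succ n ih =>
    have e : S.F ^ (p * ((n : ℤ) + 1)) * G ^ (-((n : ℤ) + 1)) =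
        (S.F ^ p * (S.F ^ (p * (n : ℤ)) * G ^ (-(n : ℤ))) * S.F ^ (-p)) * H := by
      have e1 : G ^ (-((n : ℤ) + 1)) = G ^ (-(n : ℤ)) * G⁻¹ := by
        rw [neg_add, zpow_add, zpow_neg_one]
      have e2 : S.F ^ (p * ((n : ℤ) + 1)) = S.F ^ p * S.F ^ (p * (n : ℤ)) := by
        rw [← zpow_add]
        congr 1
        ring
      rw [e1, e2, hG']
      simp only [mul_assoc]
    rw [e]
    exact S.dk_mul (S.dk_conj ih p) hH
  | pred n ih =>
    have e : S.F ^ (p * (-(n : ℤ) - 1)) * G ^ (-(-(n : ℤ) - 1)) =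
        S.F ^ (-p) * ((S.F ^ (p * (-(n : ℤ))) * G ^ (-(-(n : ℤ)))) * H⁻¹) * S.F ^ (-(-p)) := by
      have e1 : G ^ (-(-(n : ℤ) - 1)) = G ^ (-(-(n : ℤ))) * G := by
        rw [← zpow_add_one]
        congr 1
        ring
      have e2 : S.F ^ (p * (-(n : ℤ) - 1)) = S.F ^ (-p) * S.F ^ (p * (-(n : ℤ))) := by
        rw [← zpow_add]
        congr 1
        ring
      rw [e1, e2, neg_neg p]
      nth_rewrite 2 [hG]
      simp only [mul_assoc]
    rw [e]
    exact S.dk_conj (S.dk_mul ih (S.dk_inv hH)) (-p)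

private theorem dk_B {H G : X ≃ₜ X} {p : ℤ} (hH : S.Dk H) (hG : G = H⁻¹ * S.F ^ p) {j q i : ℤ}
    (hj : j = p * q + i) : S.Dk (S.F ^ j * G ^ (-q) * S.F ^ (-i)) := by
  have e : S.F ^ j * G ^ (-q) * S.F ^ (-i) =
      S.F ^ i * (S.F ^ (p * q) * G ^ (-q)) * S.F ^ (-i) := by
    rw [hj, add_comm, zpow_add]
    simp only [mul_assoc]
  rw [e]
  exact S.dk_conj (S.dk_A hH hG q) i

theorem closing {ε : ℝ} (hε : 0 < ε) : ∃ δ > 0, ∀ (p : ℕ), 0 < p → ∀ (y : ℕ → X) (h : X ≃ᵢ X),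
    h ∈ S.𝒢 → (∀ i, i + 1 < p → dist (S.F (y i)) (y (i + 1)) ≤ δ) →
    dist (S.F (y (p - 1))) (h (y 0)) ≤ δ →
    ∃ c, (S.F ^ p) c = h c ∧ ∀ i < p, dist ((S.F ^ i) c) (y i) ≤ ε := by
  set ε' : ℝ := min ε (S.e0 / 2) with hε'
  have hε'0 : 0 < ε' := lt_min hε (half_pos S.e0_pos)
  obtain ⟨δ, hδ, hsh⟩ := S.shadowing ε' hε'0
  refine ⟨δ, hδ, fun p hp y h hh h1 h2 => ?_⟩
  have hp' : (0 : ℤ) < (p : ℤ) := by exact_mod_cast hp
  set H : X ≃ₜ X := h.toHomeomorph with hH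
  have hHd : S.Dk H := ⟨h, hh, fun _ => rfl⟩
  set G : X ≃ₜ X := H⁻¹ * S.F ^ (p : ℤ) with hG
  have hG' : G⁻¹ = S.F ^ (-(p : ℤ)) * H := by
    rw [hG]
    group
  set B : ℤ → (X ≃ₜ X) := fun j => S.F ^ j * G ^ (-(j / (p : ℤ))) * S.F ^ (-(j % (p : ℤ))) with hB
  set x : ℤ → X := fun j => B j (y (j % (p : ℤ)).toNat) with hx
  have hBd : ∀ j, S.Dk (B j) := fun j => S.dk_B hHd hG (Int.mul_ediv_add_emod j p).symm
  -- the pseudo-orbit
  have hps : ∀ j, dist (S.F (x j)) (x (j + 1)) ≤ δ := by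
    intro j
    have hi0 : 0 ≤ j % (p : ℤ) := Int.emod_nonneg j hp'.ne'
    have hi1 : j % (p : ℤ) < p := Int.emod_lt_of_pos j hp'
    have hj : (p : ℤ) * (j / p) + j % p = j := Int.mul_ediv_add_emod j p
    by_cases hc : j % (p : ℤ) + 1 < p
    · have hq : (j + 1) / (p : ℤ) = j / p ∧ (j + 1) % (p : ℤ) = j % p + 1 := by
        rw [Int.ediv_emod_unique hp']
        exact ⟨by linarith, by linarith, hc⟩
      have e1 : S.F (x j) = B (j + 1) (S.F (y (j % (p : ℤ)).toNat)) := by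
        change (S.F * B j) (y (j % (p : ℤ)).toNat) = (B (j + 1) * S.F) (y (j % (p : ℤ)).toNat)
        congr 1
        rw [hB]
        simp only
        rw [hq.1, hq.2]
        have e2 : S.F ^ (j + 1) = S.F * S.F ^ j := by rw [add_comm, zpow_add, zpow_one]
        have e3 : S.F ^ (-(j % (p : ℤ) + 1)) * S.F = S.F ^ (-(j % (p : ℤ))) := by
          rw [← zpow_add_one]
          congr 1
          ring
        rw [e2, mul_assoc (S.F * S.F ^ j * G ^ (-(j / (p : ℤ)))), e3]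
        simp only [mul_assoc]
      have e2 : x (j + 1) = B (j + 1) (y ((j % (p : ℤ)).toNat + 1)) := by
        rw [hx]
        simp only
        rw [hq.2]
        congr 2
        omega
      rw [e1, e2, S.dk_dist (hBd _)]
      apply h1
      omega
    · have hc' : j % (p : ℤ) + 1 = p := by omega
      have hq : (j + 1) / (p : ℤ) = j / p + 1 ∧ (j + 1) % (p : ℤ) = 0 := by
        rw [Int.ediv_emod_unique hp']
        refine ⟨?_, le_refl _, hp'⟩
        linarith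
      have hCd : S.Dk (S.F ^ (j + 1) * G ^ (-(j / (p : ℤ))) * S.F ^ (-(p : ℤ))) :=
        S.dk_B hHd hG (by linarith)
      have e1 : S.F (x j) = (S.F ^ (j + 1) * G ^ (-(j / (p : ℤ))) * S.F ^ (-(p : ℤ)))
          (S.F (y (p - 1))) := by
        have e0 : (j % (p : ℤ)).toNat = p - 1 := by omega
        rw [hx]
        simp only
        rw [e0]
        change (S.F * B j) (y (p - 1)) =
          (S.F ^ (j + 1) * G ^ (-(j / (p : ℤ))) * S.F ^ (-(p : ℤ)) * S.F) (y (p - 1))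
        congr 1
        rw [hB]
        simp only
        have e2 : S.F ^ (j + 1) = S.F * S.F ^ j := by rw [add_comm, zpow_add, zpow_one]
        have e3 : S.F ^ (-(p : ℤ)) * S.F = S.F ^ (-(j % (p : ℤ))) := by
          rw [← zpow_add_one]
          congr 1
          linarith
        rw [e2, mul_assoc (S.F * S.F ^ j * G ^ (-(j / (p : ℤ)))), e3]
        simp only [mul_assoc]
      have e2 : x (j + 1) = (S.F ^ (j + 1) * G ^ (-(j / (p : ℤ))) * S.F ^ (-(p : ℤ)))
          (h (y 0)) := by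
        rw [hx]
        simp only
        rw [hq.2]
        change B (j + 1) (y 0) =
          (S.F ^ (j + 1) * G ^ (-(j / (p : ℤ))) * S.F ^ (-(p : ℤ)) * H) (y 0)
        congr 1
        rw [hB]
        simp only
        rw [hq.1, hq.2, neg_zero, zpow_zero, mul_one, mul_assoc _ (S.F ^ (-(p : ℤ))) H, ← hG',
          mul_assoc, ← zpow_sub_one]
        congr 2
        ring
      rw [e1, e2, S.dk_dist hCd]
      exact h2
  obtain ⟨c, hc⟩ := hsh x hps
  have hGc : G c = c := by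
    apply S.expansive
    intro j
    have hDd : S.Dk (S.F ^ j * H * S.F ^ (-j)) := S.dk_conj hHd j
    have e1 : x (j + p) = (S.F ^ j * H * S.F ^ (-j)) (x j) := by
      have hq : (j + p) / (p : ℤ) = j / p + 1 := by
        rw [Int.add_ediv_of_dvd_right (dvd_refl _), Int.ediv_self hp'.ne']
      have hm : (j + p) % (p : ℤ) = j % p := Int.add_emod_right j p
      rw [hx]
      simp only
      rw [hm]
      change B (j + p) (y (j % (p : ℤ)).toNat) =
        (S.F ^ j * H * S.F ^ (-j) * B j) (y (j % (p : ℤ)).toNat)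
      congr 1
      rw [hB]
      simp only
      rw [hq, hm]
      have e2 : G ^ (-(j / (p : ℤ) + 1)) = G⁻¹ * G ^ (-(j / (p : ℤ))) := by
        rw [neg_add_rev, zpow_add, zpow_neg_one]
      have e3 : S.F ^ (j + (p : ℤ)) * (S.F ^ (-(p : ℤ)) * H) = S.F ^ j * H := by
        rw [← mul_assoc, ← zpow_add, add_neg_cancel_right]
      have e4 : S.F ^ j * H * S.F ^ (-j) * (S.F ^ j * G ^ (-(j / (p : ℤ))) *
          S.F ^ (-(j % (p : ℤ)))) = S.F ^ j * H * G ^ (-(j / (p : ℤ))) *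
          S.F ^ (-(j % (p : ℤ))) := by
        have e5 : S.F ^ (-j) * S.F ^ j = 1 := by
          rw [← zpow_add, neg_add_cancel, zpow_zero]
        rw [mul_assoc (S.F ^ j * H), mul_assoc (S.F ^ j) (G ^ _), ← mul_assoc (S.F ^ (-j)), e5,
          one_mul]
        simp only [mul_assoc]
      rw [e4, e2, hG', ← mul_assoc (S.F ^ (j + (p : ℤ))), e3]
    have h3 : dist ((S.F ^ j) (G c)) (x j) ≤ ε' := by
      have h4 := hc (j + p)
      rw [e1] at h4
      have e2 : (S.F ^ (j + (p : ℤ))) c = (S.F ^ j * H * S.F ^ (-j)) ((S.F ^ j) (G c)) := by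
        change (S.F ^ (j + (p : ℤ))) c = (S.F ^ j * H * S.F ^ (-j) * (S.F ^ j * G)) c
        congr 1
        rw [hG]
        group
      rw [e2, S.dk_dist hDd] at h4
      exact h4
    have h5 := hc j
    have h6 : ε' ≤ S.e0 / 2 := min_le_right _ _
    have h7 := dist_triangle_right ((S.F ^ j) (G c)) ((S.F ^ j) c) (x j)
    linarith
  refine ⟨c, ?_, fun i hi => ?_⟩
  · have h3 : H⁻¹ ((S.F ^ p) c) = c := by
      have h4 : G c = H⁻¹ ((S.F ^ p) c) := by
        rw [hG, zpow_natCast]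
        rfl
      rw [← h4, hGc]
    have h5 : H (H⁻¹ ((S.F ^ p) c)) = H c := by rw [h3]
    change H (H.symm ((S.F ^ p) c)) = H c at h5
    rw [Homeomorph.apply_symm_apply] at h5
    exact h5
  · have h3 := hc (i : ℤ)
    have hq : (i : ℤ) / (p : ℤ) = 0 := Int.ediv_eq_zero_of_lt (by positivity) (by exact_mod_cast hi)
    have hm : (i : ℤ) % (p : ℤ) = i := Int.emod_eq_of_lt (by positivity) (by exact_mod_cast hi)
    have e1 : x (i : ℤ) = y i := by
      rw [hx]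
      simp only
      rw [hm, Int.toNat_natCast]
      have e2 : B (i : ℤ) = 1 := by
        rw [hB]
        simp only
        rw [hq, hm, neg_zero, zpow_zero, mul_one, ← zpow_add, add_neg_cancel, zpow_zero]
      rw [e2]
      rfl
    rw [e1, zpow_natCast] at h3
    exact h3.trans (min_le_left _ _)

end Pool.Agent.ANO2.Core.Setup
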