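import Pool.Agent.ANO2.Core.Setup

/-!
# ANO: the counting lemma

Package (self-contained, combinatorics).  The pairs `(e, e') ∈ ZMod n × ZMod n` with `Adj e e'`
(`e' = e` or `e' + 1 = e`) are the `2 n` edges of a cycle of length `2 n` (left vertices `e`, right
vertices `e'`).  Statement: for `n ≥ 3` at least `n` complete bipartite subgraphs `U q × W q` are
needed to cover the edges of this cycle.

Proof.  Elementary facts: (a) every left vertex `e` is adjacent to exactly `e, e - 1`; every right
vertex `e'` to exactly `e', e' + 1` (two different elements since `n ≥ 2`); (b) two different left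
vertices `e ≠ f` have at most one common neighbour: a common neighbour is in
`{e, e-1} ∩ {f, f-1}`; if this had two elements then `e = f - 1` and `f = e - 1`, so `2 = 0` in
`ZMod n`, impossible for `n ≥ 3`.

There are exactly `2 n` edges (the map `ZMod n × Bool → edges`, `(e, false) ↦ (e, e)`,
`(e, true) ↦ (e, e - 1)` is a bijection).  For every `q` the rectangle `U q ×ˢ W q` has at most two
elements: if `U q` is empty it is empty.  If `U q = {u}` then `W q ⊆ {u, u - 1}`.  If `U q` has two
different elements `u, v`, then by (b) `W q ⊆ {s}` for one `s` (or is empty), and by (a)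
`U q ⊆ {s, s + 1}`.  The rectangles cover the edges, so `2 n ≤ 2 card Q`.
(In Lean: `classical`, the finset of edges `(Finset.univ.filter fun p => Adj p.1 p.2)` is contained in
the `Finset.biUnion` over `q` of finsets of card `≤ 2`, `Finset.card_biUnion_le_card_mul`; for the
lower bound `2 n ≤ card edges` use the injection above, `NeZero n`, `ZMod.card`.)
-/

set_option autoImplicit false

open Set

namespace Pool.Agent.ANO2.Core

private theorem cnt_two {n : ℕ} (hn : 3 ≤ n) : (2 : ZMod n) ≠ 0 := by
  intro h
  have h1 : ((2 : ℕ) : ZMod n) = 0 := by exact_mod_cast h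
  rw [ZMod.natCast_eq_zero_iff] at h1
  exact absurd (Nat.le_of_dvd (by norm_num) h1) (by omega)

private theorem cnt_one {n : ℕ} (hn : 3 ≤ n) : (1 : ZMod n) ≠ 0 := by
  intro h
  have h1 : ((1 : ℕ) : ZMod n) = 0 := by exact_mod_cast h
  rw [ZMod.natCast_eq_zero_iff] at h1
  exact absurd (Nat.le_of_dvd (by norm_num) h1) (by omega)

/-- two different left vertices have at most one common neighbour -/
private theorem cnt_com {n : ℕ} (hn : 3 ≤ n) {u v s t : ZMod n} (huv : u ≠ v)
    (h1 : Adj u s) (h2 : Adj v s) (h3 : Adj u t) (h4 : Adj v t) : s = t := by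
  have h0 := cnt_two hn
  by_contra hst
  rcases h1 with h1 | h1 <;> rcases h2 with h2 | h2 <;> rcases h3 with h3 | h3 <;>
    rcases h4 with h4 | h4
  all_goals first
    | exact huv (h1.symm.trans h2)
    | exact hst (h1.trans h3.symm)
    | exact hst (h2.trans h4.symm)
    | exact huv (h3.symm.trans h4)
    | exact hst (add_right_cancel (h1.trans h3.symm))
    | exact hst (add_right_cancel (h2.trans h4.symm))
    | exact h0 (by linear_combination h2 + h3 - h1 - h4)
    | exact h0 (by linear_combination h1 + h4 - h2 - h3)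

theorem counting {n : ℕ} (hn : 3 ≤ n) {Q : Type} [Fintype Q] (U W : Q → Set (ZMod n))
    (hadj : ∀ q, ∀ e ∈ U q, ∀ e' ∈ W q, Adj e e')
    (hcov : ∀ e e' : ZMod n, Adj e e' → ∃ q, e ∈ U q ∧ e' ∈ W q) :
    n ≤ Fintype.card Q := by
  classical
  have hn0 : NeZero n := ⟨by omega⟩
  have h10 := cnt_one hn
  -- the edges
  have hE : 2 * n ≤ (Finset.univ.filter fun p : ZMod n × ZMod n => Adj p.1 p.2).card := by
    have h1 : Fintype.card (ZMod n × Bool) = 2 * n := by
      rw [Fintype.card_prod, ZMod.card, Fintype.card_bool, mul_comm]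
    rw [← h1, ← Finset.card_univ]
    apply Finset.card_le_card_of_injOn
      (fun p : ZMod n × Bool => if p.2 = true then (p.1, p.1 - 1) else (p.1, p.1))
    · rintro ⟨e, b⟩ _
      cases b
      · simp [Adj]
      · simp [Adj]
    · rintro ⟨e, b⟩ _ ⟨f, c⟩ _ h
      cases b <;> cases c <;> simp at h
      · rw [h]
      · exact absurd (by rw [h.1] at h; linear_combination h.2) h10
      · exact absurd (by rw [h.1] at h; linear_combination -h.2) h10
      · rw [h]
  -- the rectangles
  have hR : ∀ q, (Finset.univ.filter fun p : ZMod n × ZMod n =>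
      p.1 ∈ U q ∧ p.2 ∈ W q).card ≤ 2 := by
    intro q
    set R := Finset.univ.filter fun p : ZMod n × ZMod n => p.1 ∈ U q ∧ p.2 ∈ W q with hRd
    have hm : ∀ p ∈ R, p.1 ∈ U q ∧ p.2 ∈ W q := fun p hp => (Finset.mem_filter.1 hp).2
    by_cases h1 : ∃ p ∈ R, ∃ p' ∈ R, p.1 ≠ p'.1
    · obtain ⟨p, hp, p', hp', hne⟩ := h1
      have h2 : ∀ r ∈ R, r.2 = p.2 := fun r hr =>
        cnt_com hn hne (hadj q _ (hm p hp).1 _ (hm r hr).2)
          (hadj q _ (hm p' hp').1 _ (hm r hr).2) (hadj q _ (hm p hp).1 _ (hm p hp).2)
          (hadj q _ (hm p' hp').1 _ (hm p hp).2)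
      have h3 : R ⊆ {(p.2, p.2), (p.2 + 1, p.2)} := by
        intro r hr
        have h4 := h2 r hr
        rw [Finset.mem_insert, Finset.mem_singleton]
        rcases hadj q _ (hm r hr).1 _ (hm r hr).2 with h5 | h5
        · left
          exact Prod.ext (h5.symm.trans h4) h4
        · right
          refine Prod.ext ?_ h4
          rw [← h5, h4]
      exact (Finset.card_le_card h3).trans Finset.card_le_two
    · have h1' : ∀ p ∈ R, ∀ p' ∈ R, p.1 = p'.1 := by
        intro p hp p' hp'
        by_contra h2
        exact h1 ⟨p, hp, p', hp', h2⟩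
      rcases R.eq_empty_or_nonempty with h2 | ⟨p, hp⟩
      · rw [h2, Finset.card_empty]
        exact Nat.zero_le _
      · have h3 : R ⊆ {(p.1, p.1), (p.1, p.1 - 1)} := by
          intro r hr
          have h4 := h1' r hr p hp
          rw [Finset.mem_insert, Finset.mem_singleton]
          rcases hadj q _ (hm r hr).1 _ (hm r hr).2 with h5 | h5
          · left
            exact Prod.ext h4 (h5.trans h4)
          · right
            refine Prod.ext h4 ?_
            rw [← h4, ← h5, add_sub_cancel_right]
        exact (Finset.card_le_card h3).trans Finset.card_le_two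
  have hsub : (Finset.univ.filter fun p : ZMod n × ZMod n => Adj p.1 p.2) ⊆
      Finset.univ.biUnion fun q => Finset.univ.filter fun p : ZMod n × ZMod n =>
        p.1 ∈ U q ∧ p.2 ∈ W q := by
    intro p hp
    obtain ⟨q, hq⟩ := hcov p.1 p.2 (Finset.mem_filter.1 hp).2
    exact Finset.mem_biUnion.2 ⟨q, Finset.mem_univ q,
      Finset.mem_filter.2 ⟨Finset.mem_univ p, hq⟩⟩
  have h1 := Finset.card_le_card hsub
  have h2 := Finset.card_biUnion_le_card_mul Finset.univ
    (fun q => Finset.univ.filter fun p : ZMod n × ZMod n => p.1 ∈ U q ∧ p.2 ∈ W q) 2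
    (fun q _ => hR q)
  rw [Finset.card_univ] at h2
  omega

end Pool.Agent.ANO2.Core
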