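import Pool.Agent.ANO2.Core.Basic

/-!
# ANO phase 2, abstract core: uniform expansivity (C1)

Proof of `unif_exp`.  Otherwise there are `ρ > 0` and `x_n, y_n` with `dist x_n y_n ≥ ρ` and
`dist (F^j x_n) (F^j y_n) ≤ e0` for `|j| ≤ n`.  Let `K` be as in `S.cocompact`, `g_n ∈ 𝒢` with
`g_n x_n ∈ K`; replace `x_n, y_n` by `g_n x_n, g_n y_n` (`S.dist_zpow`).  Now `x_n ∈ K`,
`dist x_n y_n ≤ e0` (`j = 0`), so `(x_n, y_n)` stays in a compact set (`Metric.cthickening`, or
a product of compact sets) and a subsequence converges to `(x, y)`.  For every `j ∈ ℤ`,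
`dist (F^j x) (F^j y) ≤ e0` by continuity, so `x = y` by `S.expansive`; but `dist x y ≥ ρ > 0`.
-/

set_option autoImplicit false

open Set Filter Topology

namespace Pool.Agent.ANO2.Core.Setup

variable {X : Type} [MetricSpace X] [ProperSpace X] (S : Setup X)

theorem unif_exp {ρ : ℝ} (hρ : 0 < ρ) : ∃ N : ℕ, ∀ x y : X,
    (∀ j : ℤ, |j| ≤ N → dist ((S.F ^ j) x) ((S.F ^ j) y) ≤ S.e0) → dist x y < ρ := by
  by_contra hcon
  push Not at hcon
  choose x y hxy hd using hcon
  obtain ⟨K, hK, hcov⟩ := S.cocompact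
  choose g hg hgK using fun n => hcov (x n)
  have hab : ∀ n : ℕ, ∀ j : ℤ, |j| ≤ (n : ℤ) →
      dist ((S.F ^ j) (g n (x n))) ((S.F ^ j) (g n (y n))) ≤ S.e0 := by
    intro n j hj
    rw [S.dist_zpow (hg n)]
    exact hxy n j hj
  have hb : ∀ n, g n (y n) ∈ Metric.cthickening S.e0 K := by
    intro n
    have h0 := hab n 0 (by simp)
    refine Metric.mem_cthickening_of_dist_le _ _ S.e0 K (hgK n) ?_
    rw [dist_comm]
    simpa using h0
  have hcomp : IsCompact (K ×ˢ Metric.cthickening S.e0 K) := hK.prod (hK.cthickening)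
  obtain ⟨⟨a, b⟩, -, φ, hφ, hlim⟩ := hcomp.tendsto_subseq
    (x := fun n => (g n (x n), g n (y n))) (fun n => ⟨hgK n, hb n⟩)
  have ha' : Tendsto (fun n => g (φ n) (x (φ n))) atTop (𝓝 a) :=
    (continuous_fst.tendsto _).comp hlim
  have hb' : Tendsto (fun n => g (φ n) (y (φ n))) atTop (𝓝 b) :=
    (continuous_snd.tendsto _).comp hlim
  have hE : a = b := by
    apply S.expansive
    intro j
    have h1 : Tendsto (fun n => dist ((S.F ^ j) (g (φ n) (x (φ n))))
        ((S.F ^ j) (g (φ n) (y (φ n))))) atTop (𝓝 (dist ((S.F ^ j) a) ((S.F ^ j) b))) :=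
      (((S.F ^ j).continuous.tendsto a).comp ha').dist (((S.F ^ j).continuous.tendsto b).comp hb')
    refine le_of_tendsto h1 ?_
    filter_upwards [eventually_ge_atTop j.natAbs] with n hn
    apply hab
    have h2 : j.natAbs ≤ φ n := hn.trans (hφ.id_le n)
    have h3 : |j| = (j.natAbs : ℤ) := Int.abs_eq_natAbs j
    rw [h3]
    exact_mod_cast h2
  have hρ' : ρ ≤ dist a b := by
    refine ge_of_tendsto (ha'.dist hb') (Eventually.of_forall fun n => ?_)
    rw [(g (φ n)).dist_eq]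
    exact hd (φ n)
  rw [hE, dist_self] at hρ'
  exact absurd hρ' (not_le.mpr hρ)

end Pool.Agent.ANO2.Core.Setup
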