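import Pool.Agent.ANO2.Core.Fixed

/-!
# ANO phase 2, abstract core: the semiconjugacy on the closure of the periodic points

Package.  `S.Per` = lifts of periodic points, `S.phi x` = the point `z` with `S.Rel x z`.

Proofs.
* `phi_eq`: `S.phi x` satisfies `Rel x (phi x)` (`dif_pos`, `Exists.choose_spec`), `rel_unique`.
* `exists_rel_of_per`: `S.index` gives `z` with `g (F0^m z) = z`; `rel_of_fixed`.
* `exists_rel`: let `x_n ∈ Per`, `x_n → x` (`mem_closure_iff_seq_limit`), `Rel x_n z_n`.  By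
  `rel_bound` (`j = 0`) `dist x_n z_n ≤ C1`, so `z_n` is bounded, a subsequence converges
  (`tendsto_subseq_of_bounded`, proper space) to some `z`, `Rel x z` by `rel_closed`.
* `rel_phi`: from `exists_rel`.
* `continuousOn_phi`: sequential criterion or: let `x_n ∈ closure Per`, `x_n → x ∈ closure Per`.
  Every subsequence of `phi x_n` (bounded by `rel_bound`) has a further subsequence converging to
  some `z` with `Rel x z` (closed graph), so `z = phi x` by uniqueness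
  (`tendsto_of_subseq_tendsto`).  In a neat form: `phi` restricted to `closure Per` has a closed
  graph and is locally bounded, `X` is proper.
* `per_g`, `per_F`: if `g1 (F^m q) = q` then `(g g1 g'⁻¹) (F^m (g q)) = g q` where
  `F^m (g x) = g' (F^m x)`; and `F^j q = F^j (g1 (F^m q)) = g1' (F^j (F^m q)) = g1' (F^m (F^j q))`.
* `closure_g`, `closure_F`: `map_mem_closure` with the homeomorphism.
* `phi_F`, `phi_g`: `phi_eq` and `rel_F`, `rel_g`, `rel_phi`.
* `dist_phi`: `rel_bound` and `rel_phi`.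
-/

set_option autoImplicit false

open Set Filter Topology

namespace Pool.Agent.ANO2.Core.Setup

variable {X : Type} [MetricSpace X] [ProperSpace X] (S : Setup X)

theorem phi_eq {x z : X} (h : S.Rel x z) : S.phi x = z := by
  have hex : ∃ z, S.Rel x z := ⟨z, h⟩
  unfold phi
  rw [dif_pos hex]
  exact S.rel_unique hex.choose_spec h

theorem exists_rel_of_per {x : X} (hx : x ∈ S.Per) : ∃ z, S.Rel x z := by
  obtain ⟨g, hg, m, hm, hq⟩ := hx
  obtain ⟨z, hz⟩ := S.index g hg m hm x hq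
  exact ⟨z, S.rel_of_fixed hg hm hq hz⟩

private theorem rel_sub {u z : ℕ → X} {x : X} (hu : Tendsto u atTop (𝓝 x))
    (h : ∀ n, S.Rel (u n) (z n)) :
    ∃ a, S.Rel x a ∧ ∃ φ : ℕ → ℕ, StrictMono φ ∧ Tendsto (z ∘ φ) atTop (𝓝 a) := by
  obtain ⟨C1, hC1⟩ := S.rel_bound
  have h1 : ∀ n, dist (u n) (z n) ≤ C1 := by
    intro n
    have h2 := hC1 _ _ (h n) 0
    rw [zpow_zero, zpow_zero] at h2
    exact h2
  have h2 : ∀ᶠ n in atTop, z n ∈ Metric.closedBall x (C1 + 1) := by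
    have h3 : ∀ᶠ n in atTop, dist (u n) x < 1 := hu.eventually (Metric.ball_mem_nhds x one_pos)
    filter_upwards [h3] with n hn
    rw [Metric.mem_closedBall]
    have h4 := dist_triangle (z n) (u n) x
    have h5 := h1 n
    rw [dist_comm] at h5
    linarith
  obtain ⟨a, -, φ, hφ, ha⟩ := (isCompact_closedBall x (C1 + 1)).tendsto_subseq' h2.frequently
  refine ⟨a, ?_, φ, hφ, ha⟩
  have h3 : Tendsto (fun n => (u (φ n), z (φ n))) atTop (𝓝 (x, a)) :=
    (hu.comp hφ.tendsto_atTop).prodMk_nhds ha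
  exact S.rel_closed.mem_of_tendsto h3 (Eventually.of_forall fun n => h (φ n))

theorem exists_rel {x : X} (hx : x ∈ closure S.Per) : ∃ z, S.Rel x z := by
  obtain ⟨u, hu, hux⟩ := mem_closure_iff_seq_limit.1 hx
  choose z hz using fun n => S.exists_rel_of_per (hu n)
  obtain ⟨a, ha, -⟩ := rel_sub S hux hz
  exact ⟨a, ha⟩

theorem rel_phi {x : X} (hx : x ∈ closure S.Per) : S.Rel x (S.phi x) := by
  obtain ⟨z, hz⟩ := S.exists_rel hx
  rw [S.phi_eq hz]
  exact hz

theorem continuousOn_phi : ContinuousOn S.phi (closure S.Per) := by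
  intro x hx
  refine tendsto_of_seq_tendsto fun u hu => ?_
  obtain ⟨hu1, hu2⟩ := tendsto_nhdsWithin_iff.1 hu
  refine tendsto_of_subseq_tendsto fun ns hns => ?_
  obtain ⟨N, hN⟩ := eventually_atTop.1 (hns.eventually hu2)
  have h1 : Tendsto (fun n => u (ns (n + N))) atTop (𝓝 x) :=
    (hu1.comp hns).comp (tendsto_add_atTop_nat N)
  obtain ⟨a, ha, φ, -, hφa⟩ := rel_sub S h1 fun n =>
    S.rel_phi (hN (n + N) (Nat.le_add_left N n))
  refine ⟨fun n => φ n + N, ?_⟩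
  rw [S.phi_eq ha]
  exact hφa

theorem per_g {g : X ≃ᵢ X} (hg : g ∈ S.𝒢) {x : X} (hx : x ∈ S.Per) : g x ∈ S.Per := by
  obtain ⟨g1, hg1, m, hm, hq⟩ := hx
  obtain ⟨g', hg', h1, -⟩ := S.conj_zpow hg (m : ℤ)
  refine ⟨g * g1 * g'⁻¹, S.𝒢.mul_mem (S.𝒢.mul_mem hg hg1) (S.𝒢.inv_mem hg'), m, hm, ?_⟩
  have h2 := h1 x
  rw [zpow_natCast] at h2
  rw [h2, IsometryEquiv.mul_apply, IsometryEquiv.mul_apply, IsometryEquiv.inv_apply_self, hq]

theorem per_F (j : ℤ) {x : X} (hx : x ∈ S.Per) : (S.F ^ j) x ∈ S.Per := by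
  obtain ⟨g1, hg1, m, hm, hq⟩ := hx
  obtain ⟨g', hg', h1, -⟩ := S.conj_zpow hg1 j
  refine ⟨g', hg', m, hm, ?_⟩
  have h2 : (S.F ^ m) ((S.F ^ j) x) = (S.F ^ j) ((S.F ^ m) x) := by
    have h3 : S.F ^ m * S.F ^ j = S.F ^ j * S.F ^ m := ((Commute.refl S.F).pow_left m).zpow_right j
    exact congrArg (fun H : X ≃ₜ X => H x) h3
  rw [h2, ← h1, hq]

theorem closure_g {g : X ≃ᵢ X} (hg : g ∈ S.𝒢) {x : X} (hx : x ∈ closure S.Per) :
    g x ∈ closure S.Per :=
  map_mem_closure g.continuous hx fun _ hy => S.per_g hg hy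

theorem closure_F (j : ℤ) {x : X} (hx : x ∈ closure S.Per) : (S.F ^ j) x ∈ closure S.Per :=
  map_mem_closure (S.F ^ j).continuous hx fun _ hy => S.per_F j hy

theorem phi_g {g : X ≃ᵢ X} (hg : g ∈ S.𝒢) {x : X} (hx : x ∈ closure S.Per) :
    S.phi (g x) = g (S.phi x) :=
  S.phi_eq (S.rel_g hg (S.rel_phi hx))

theorem phi_F (j : ℤ) {x : X} (hx : x ∈ closure S.Per) :
    S.phi ((S.F ^ j) x) = (S.F0 ^ j) (S.phi x) :=
  S.phi_eq (S.rel_F j (S.rel_phi hx))

theorem dist_phi : ∃ C1 : ℝ, ∀ x ∈ closure S.Per, ∀ j : ℤ,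
    dist ((S.F ^ j) x) ((S.F0 ^ j) (S.phi x)) ≤ C1 := by
  obtain ⟨C1, hC1⟩ := S.rel_bound
  exact ⟨C1, fun x hx j => hC1 _ _ (S.rel_phi hx) j⟩

end Pool.Agent.ANO2.Core.Setup
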