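import Pool.Agent.ANO2.Core.Basic

/-!
# ANO phase 2, abstract core: the shadowing relation

`Rel x z` means `sup_j dist (F^j x) (F0^j z) < ∞` (`j ∈ ℤ`).
-/

set_option autoImplicit false

open Set Filter Topology

namespace Pool.Agent.ANO2.Core.Setup

variable {X : Type} [MetricSpace X] [ProperSpace X] (S : Setup X)

theorem rel_bound' : ∃ C1 : ℝ, ∀ x z, S.Rel x z → ∀ j : ℤ,
    dist ((S.F ^ j) x) ((S.F0 ^ j) z) ≤ C1 := S.rel_bound

theorem rel_unique {x z z' : X} (h : S.Rel x z) (h' : S.Rel x z') : z = z' := by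
  obtain ⟨C, hC⟩ := h
  obtain ⟨C', hC'⟩ := h'
  refine S.eq_of_bounded _ _ ⟨C + C', fun j => ?_⟩
  have h1 := dist_triangle ((S.F0 ^ j) z) ((S.F ^ j) x) ((S.F0 ^ j) z')
  have h2 := hC j
  rw [dist_comm] at h2
  exact h1.trans (add_le_add h2 (hC' j))

theorem rel_g {g : X ≃ᵢ X} (hg : g ∈ S.𝒢) {x z : X} (h : S.Rel x z) : S.Rel (g x) (g z) := by
  obtain ⟨C, hC⟩ := h
  refine ⟨C, fun j => ?_⟩
  obtain ⟨g', -, h1, h2⟩ := S.conj_zpow hg j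
  rw [h1, h2, g'.dist_eq]
  exact hC j

theorem rel_F (j : ℤ) {x z : X} (h : S.Rel x z) : S.Rel ((S.F ^ j) x) ((S.F0 ^ j) z) := by
  obtain ⟨C, hC⟩ := h
  refine ⟨C, fun i => ?_⟩
  have h1 : (S.F ^ i) ((S.F ^ j) x) = (S.F ^ (i + j)) x := by
    rw [zpow_add]
    rfl
  have h2 : (S.F0 ^ i) ((S.F0 ^ j) z) = (S.F0 ^ (i + j)) z := by
    rw [zpow_add]
    rfl
  rw [h1, h2]
  exact hC _

end Pool.Agent.ANO2.Core.Setup
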