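import Pool.Agent.ANO2.Core.Dir
import Pool.Agent.ANO2.Core.PerShadow
import Pool.Agent.ANO2.Core.Exp

/-!
# ANO phase 2, abstract core: the directions at `b` and at its limit point `q`, step (5)

If `b ∈ K0` and `T^[n] b → q`, `T q = q`, then `UX q ⊆ UX b`.
-/

set_option autoImplicit false

open Set Filter Topology

namespace Pool.Agent.ANO2.Core

variable {X : Type} [MetricSpace X] [ProperSpace X] {S : Setup X}

namespace Local

variable (L : Local S)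

theorem follow {b q : X} (hT : L.T q = q) (hq : Tendsto (fun n => L.T^[n] b) atTop (𝓝 q))
    {ε : ℝ} (hε : 0 < ε) : ∃ N : ℕ, ∀ n, N ≤ n → ∀ j : ℕ,
      dist ((S.F ^ (j : ℤ)) (L.T^[n] b)) ((S.F ^ (j : ℤ)) q) ≤ ε := by
  have h1 : ∀ i ∈ Finset.range L.m, ∀ᶠ n in atTop,
      dist ((S.F ^ (i : ℤ)) (L.T^[n] b)) ((S.F ^ (i : ℤ)) q) ≤ ε := by
    intro i _
    have hc : Tendsto (fun n => (S.F ^ (i : ℤ)) (L.T^[n] b)) atTop (𝓝 ((S.F ^ (i : ℤ)) q)) :=
      ((S.F ^ (i : ℤ)).continuous.tendsto q).comp hq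
    exact (Metric.tendsto_nhds.1 hc ε hε).mono fun n hn => hn.le
  have h2 := (Filter.eventually_all_finset (Finset.range L.m)).2 h1
  obtain ⟨N, hN⟩ := Filter.eventually_atTop.1 h2
  refine ⟨N, fun n hn j => ?_⟩
  obtain ⟨gl, hgl, hF, -⟩ := L.iter_T (j / L.m)
  have hj : ((j : ℕ) : ℤ) = ((j % L.m : ℕ) : ℤ) + ((L.m * (j / L.m) : ℕ) : ℤ) := by
    rw [← Nat.cast_add, Nat.mod_add_div]
  have key : ∀ x : X, (S.F ^ (j : ℤ)) x
      = (S.F ^ ((j % L.m : ℕ) : ℤ)) (gl⁻¹ (L.T^[j / L.m] x)) := by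
    intro x
    have h3 : gl⁻¹ (L.T^[j / L.m] x) = (S.F ^ ((L.m * (j / L.m) : ℕ) : ℤ)) x := by
      rw [hF x, zpow_natCast]
      exact gl.symm_apply_apply _
    rw [h3, hj, zpow_add]
    rfl
  have hTq : L.T^[j / L.m] q = q := Function.iterate_fixed hT _
  rw [key, key, S.dist_zpow (S.𝒢.inv_mem hgl), hTq, ← Function.iterate_add_apply]
  exact hN (j / L.m + n) (hn.trans (Nat.le_add_left _ _)) (j % L.m) (Finset.mem_range.2 (Nat.mod_lt _ L.m_pos))

private theorem near_zpow (S : Setup X) (M : ℕ) (s : ℤ) (q : X) {ε : ℝ} (hε : 0 < ε) :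
    ∀ᶠ a in 𝓝 q, ∀ j : ℕ, j ≤ M →
      dist ((S.F ^ (s * (j : ℤ))) a) ((S.F ^ (s * (j : ℤ))) q) ≤ ε := by
  have h1 : ∀ i ∈ Finset.range (M + 1), ∀ᶠ a in 𝓝 q,
      dist ((S.F ^ (s * (i : ℤ))) a) ((S.F ^ (s * (i : ℤ))) q) ≤ ε := by
    intro i _
    exact (Metric.tendsto_nhds.1 ((S.F ^ (s * (i : ℤ))).continuous.tendsto q) ε hε).mono
      fun n hn => hn.le
  refine ((Filter.eventually_all_finset (Finset.range (M + 1))).2 h1).mono fun a ha j hj => ?_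
  exact ha j (Finset.mem_range.2 (by omega))

theorem UX_superset {b q : X} (hb : b ∈ L.K0) (hT : L.T q = q)
    (hq : Tendsto (fun n => L.T^[n] b) atTop (𝓝 q)) : L.UX q ⊆ L.UX b := by
  intro e he
  have h0 := S.e0_pos
  have hε1 : 0 < S.e0 / 3 := by linarith
  obtain ⟨δ, hδ, hsh⟩ := S.per_shadow hε1
  have hmin : 0 < min (S.e0 / 3) (δ / 3) := lt_min hε1 (by linarith)
  obtain ⟨N, hN⟩ := L.follow hT hq hmin
  have hbN : ∀ k : ℕ, L.T^[k] b ∈ L.K0 := by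
    intro k
    induction k with
    | zero => exact hb
    | succ k ih =>
      rw [Function.iterate_succ_apply']
      exact L.T_mem_K0 ih
  rw [← L.UX_iter hb N]
  have hfol := hN N le_rfl
  have hb' := hbN N
  generalize L.T^[N] b = b' at hfol hb'
  have hbq : dist b' q ≤ δ / 3 := by
    have := hfol 0
    simp only [Nat.cast_zero, zpow_zero] at this
    exact le_trans this (min_le_right _ _)
  obtain ⟨NX, hNX, hclose⟩ := L.closeX
  have hqK : q ∈ L.K0 := L.fix_mem_K0 hT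
  show ∃ᶠ a in 𝓝 b', a ∈ S.Per ∧ S.phi a ∈ L.XS e
  rw [Filter.frequently_iff]
  intro V hV
  obtain ⟨η, hη, hball⟩ := Metric.eventually_nhds_iff.1
    ((L.eventually_phi hb' hNX).and (Filter.eventually_mem_set.2 hV))
  obtain ⟨M, hM⟩ := S.unif_exp hη
  -- the point `a`
  have hea : ∀ᶠ a in 𝓝 q, (a ∈ closure S.Per → S.phi a ∈ NX) ∧ dist a q < δ / 3 ∧
      ∀ j : ℕ, j ≤ M → dist ((S.F ^ ((1 : ℤ) * (j : ℤ))) a) ((S.F ^ ((1 : ℤ) * (j : ℤ))) q)
        ≤ S.e0 / 3 :=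
    (L.eventually_phi hqK hNX).and ((Metric.eventually_nhds_iff.2
      ⟨δ / 3, by linarith, fun y hy => hy⟩).and (near_zpow S M 1 q hε1))
  have he' : ∃ᶠ a in 𝓝 q, a ∈ S.Per ∧ S.phi a ∈ L.XS e := he
  obtain ⟨a, ⟨haP, hae⟩, haN, haq, haj⟩ := (he'.and_eventually hea).exists
  have haN' := haN (subset_closure haP)
  simp only [one_mul] at haj
  -- the point `a'`
  have hea' : ∀ᶠ a in 𝓝 b', dist a b' < δ / 3 ∧
      ∀ j : ℕ, j ≤ M → dist ((S.F ^ ((-1 : ℤ) * (j : ℤ))) a) ((S.F ^ ((-1 : ℤ) * (j : ℤ))) b')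
        ≤ S.e0 / 3 :=
    (Metric.eventually_nhds_iff.2 ⟨δ / 3, by linarith, fun y hy => hy⟩).and
      (near_zpow S M (-1) b' hε1)
  obtain ⟨a', haP', haq', haj'⟩ :=
    ((mem_closure_iff_frequently.1 hb'.1).and_eventually hea').exists
  simp only [neg_one_mul] at haj'
  have haa : dist a a' ≤ δ := by
    have h1 : dist a a' ≤ dist a q + dist q b' + dist b' a' := dist_triangle4 _ _ _ _
    have h2 : dist q b' ≤ δ / 3 := by rw [dist_comm]; exact hbq
    have h3 : dist b' a' < δ / 3 := by rw [dist_comm]; exact haq'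
    linarith
  -- constants
  obtain ⟨C1, hC1⟩ := S.dist_phi
  obtain ⟨Ja, hcl⟩ := hclose e (S.phi a) haN' hae (2 * C1 + S.e0 / 3)
  obtain ⟨J, hJ⟩ : ∃ J : ℕ, M ≤ J ∧ Ja ≤ J := ⟨max M Ja, le_max_left _ _, le_max_right _ _⟩
  obtain ⟨c, hcP, hcf, hcb⟩ := hsh a haP a' haP' haa J
  -- `c` is close to `b'`
  have hcb' : dist c b' < η := by
    refine hM c b' fun j hj => ?_
    rcases le_or_gt 0 j with h | h
    · obtain ⟨k, rfl⟩ := Int.eq_ofNat_of_zero_le h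
      rw [abs_of_nonneg h] at hj
      have hk : k ≤ M := by exact_mod_cast hj
      have h1 := hcf k (hk.trans hJ.1)
      have h2 := haj k hk
      have h3 := (hfol k).trans (min_le_left _ _)
      rw [dist_comm] at h3
      have h4 : dist ((S.F ^ (k : ℤ)) c) ((S.F ^ (k : ℤ)) b') ≤
          dist ((S.F ^ (k : ℤ)) c) ((S.F ^ (k : ℤ)) a)
          + dist ((S.F ^ (k : ℤ)) a) ((S.F ^ (k : ℤ)) q)
          + dist ((S.F ^ (k : ℤ)) q) ((S.F ^ (k : ℤ)) b') := dist_triangle4 _ _ _ _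
      linarith
    · obtain ⟨k, hk⟩ := Int.eq_ofNat_of_zero_le (a := -j) (by omega)
      have hj' : j = -(k : ℤ) := by omega
      subst hj'
      rw [abs_neg, abs_of_nonneg (Int.natCast_nonneg k)] at hj
      have hk' : k ≤ M := by exact_mod_cast hj
      have h1 := hcb k (by omega) (hk'.trans hJ.1)
      have h2 := haj' k hk'
      have h4 := dist_triangle ((S.F ^ (-(k : ℤ))) c) ((S.F ^ (-(k : ℤ))) a')
        ((S.F ^ (-(k : ℤ))) b')
      linarith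
  obtain ⟨hcN, hcV⟩ := hball hcb'
  have hcN' := hcN (subset_closure hcP)
  refine ⟨c, hcV, hcP, hcl J hJ.2 (S.phi c) hcN' ?_⟩
  have h1 := hC1 c (subset_closure hcP) J
  have h2 := hC1 a (subset_closure haP) J
  have h3 := hcf J le_rfl
  rw [dist_comm] at h1
  have h4 := dist_triangle4 ((S.F0 ^ (J : ℤ)) (S.phi c)) ((S.F ^ (J : ℤ)) c)
    ((S.F ^ (J : ℤ)) a) ((S.F0 ^ (J : ℤ)) (S.phi a))
  linarith

end Local

end Pool.Agent.ANO2.Core
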